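import Mathlib

namespace Pool.Agent.Results.MP_b944bf_lc.Unbounded

open Sum

/-- A profile: every agent has a strict total order on the items (`pref a b b'`: agent `a`
prefers `b` to `b'`). -/
structure Profile (n : ℕ) where
  pref : Fin n → Fin n → Fin n → Prop
  sto : ∀ a, IsStrictTotalOrder (Fin n) (pref a)

/-- The pseudometric on agents (left) and items (right) is consistent with the profile. -/
def Consistent {n : ℕ} (σ : Profile n) (d : PseudoMetricSpace (Fin n ⊕ Fin n)) : Prop :=
  ∀ a b b', σ.pref a b b' → d.dist (inl a) (inr b) ≤ d.dist (inl a) (inr b')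

/-- Max-cost of a perfect matching. -/
noncomputable def cost {n : ℕ} (d : PseudoMetricSpace (Fin n ⊕ Fin n)) (M : Fin n ≃ Fin n) : ℝ :=
  ⨆ a, d.dist (inl a) (inr (M a))

/-- Optimal max-cost. -/
noncomputable def opt {n : ℕ} (d : PseudoMetricSpace (Fin n ⊕ Fin n)) : ℝ := ⨅ M, cost d M

def h (k x : ℕ) : ℕ := Nat.log 2 (x / (k + 1) + 1)

theorem h_mono (k) {x y} (e : x ≤ y) : h k x ≤ h k y :=
  Nat.log_mono_right (Nat.succ_le_succ (Nat.div_le_div_right e))

theorem h_le (k) {x y} (e : y / (k + 1) ≤ 2 * (x / (k + 1)) + 1) : h k y ≤ h k x + 1 := by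
  unfold h
  rw [← Nat.log_mul_base (by omega) (Nat.succ_ne_zero _)]
  exact Nat.log_mono_right (by omega)

theorem h_add (k x) : h k (x + (k + 1)) ≤ h k x + 1 :=
  h_le k (by rw [Nat.add_div_right _ (by omega)]; omega)

theorem h_two (k x) : h k (x + x) ≤ h k x + 1 := h_le k (by
  rw [Nat.add_div (by omega)]; split_ifs <;> omega)

theorem h_lip (k x r) : h k (x + r) ≤ h k x + r := by
  induction r with
  | zero => simp
  | succ r ih =>
    have := h_add k (x + r)
    have := h_mono k (show x + (r + 1) ≤ x + r + (k + 1) by omega)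
    omega

theorem h_dist (k x y) : h k x ≤ h k y + Nat.dist x y :=
  (h_mono k (by unfold Nat.dist; omega)).trans (h_lip k y _)

def G (k v r : ℕ) : ℕ := min r (h k (v + r))

theorem G_mono (k v) {r s} (e : r ≤ s) : G k v r ≤ G k v s :=
  min_le_min e (h_mono k (by omega))

def key (k m : ℕ) (i j : Fin (m + 1)) : ℕ :=
  if j = Fin.last m then k + 1 else Nat.dist (2 * i) (2 * j + 1)

def prof (k m : ℕ) : Profile (m + 1) where
  pref a b b' := toLex (key k m a b, b) < toLex (key k m a b', b')
  sto a := by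
    haveI : Std.Trichotomous fun b b' : Fin (m + 1) =>
        toLex (key k m a b, b) < toLex (key k m a b', b') := ⟨fun b b' h1 h2 => by
      have := le_antisymm (not_lt.1 h2) (not_lt.1 h1)
      exact (Prod.ext_iff.1 (toLex.injective this)).2⟩
    haveI : Std.Irrefl fun b b' : Fin (m + 1) =>
        toLex (key k m a b, b) < toLex (key k m a b', b') := ⟨fun b => lt_irrefl _⟩
    haveI : IsTrans (Fin (m + 1)) fun b b' : Fin (m + 1) =>
        toLex (key k m a b, b) < toLex (key k m a b', b') := ⟨fun _ _ _ => lt_trans⟩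
    exact {}

theorem build (k m : ℕ) (p : Fin (m + 1) ⊕ Fin (m + 1) → ℕ)
    (hp : ∀ i j, j ≠ Fin.last m → Nat.dist (p (inl i)) (p (inr j)) = Nat.dist (2 * i) (2 * j + 1))
    (hb : ∀ i, h k (p (inl i) + (k + 1)) ≤ k + 1) :
    ∃ d : PseudoMetricSpace (Fin (m + 1) ⊕ Fin (m + 1)), Consistent (prof k m) d ∧
      ∀ i j, d.dist (inl i) (inr j) = (G k (p (inl i)) (key k m i j) + 1 : ℕ) := by
  classical
  let t : Fin (m + 1) ⊕ Fin (m + 1) := inr (Fin.last m)
  let ρ : Fin (m + 1) ⊕ Fin (m + 1) → Fin (m + 1) ⊕ Fin (m + 1) → ℕ := fun x y =>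
    if x = t then (if y = t then 0 else h k (p y)) else if y = t then h k (p x) else
      min (Nat.dist (p x) (p y)) (max (h k (p x)) (h k (p y)))
  have tri : ∀ x y z, ρ x z ≤ ρ x y + ρ y z := by
    intro x y z
    have := h_dist k (p x) (p y)
    have := h_dist k (p y) (p x)
    have := h_dist k (p y) (p z)
    have := h_dist k (p z) (p y)
    have := Nat.dist.triangle_inequality (p x) (p y) (p z)
    have := Nat.dist_comm (p x) (p y)
    have := Nat.dist_comm (p y) (p z)
    simp only [ρ]
    split_ifs <;> omega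
  have sym : ∀ x y, ρ x y = ρ y x := by
    intro x y
    have := Nat.dist_comm (p x) (p y)
    simp only [ρ]
    split_ifs <;> omega
  have ap : ∀ i j, ρ (inl i) (inr j) ≤ G k (p (inl i)) (key k m i j) ∧
      G k (p (inl i)) (key k m i j) ≤ ρ (inl i) (inr j) + 1 := by
    intro i j
    by_cases e : j = Fin.last m
    · subst e
      have := hb i
      have := h_add k (p (inl i))
      have := h_mono k (Nat.le_add_right (p (inl i)) (k + 1))
      simp only [ρ, t, G, key, if_true, reduceCtorEq, if_false]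
      omega
    · simp only [ρ, t, G, key, e, reduceCtorEq, if_false, inr.injEq, ← hp i j e]
      generalize p (inl i) = v, p (inr j) = b
      rcases le_total v b with l | l
      · have := h_mono k l
        rw [show v + Nat.dist v b = b by unfold Nat.dist; omega]
        omega
      · have := h_mono k l
        have := h_mono k (Nat.le_add_right v (Nat.dist v b))
        have := h_mono k (show v + Nat.dist v b ≤ v + v by unfold Nat.dist; omega)
        have := h_two k v
        omega
  let e : Fin (m + 1) ⊕ Fin (m + 1) → Fin (m + 1) ⊕ Fin (m + 1) → ℕ := fun x y =>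
    match x, y with
    | inl i, inr j => G k (p (inl i)) (key k m i j)
    | inr j, inl i => G k (p (inl i)) (key k m i j)
    | x, y => ρ x y
  have e1 : ∀ x y, ρ x y ≤ e x y ∧ e x y ≤ ρ x y + 1 := by
    rintro (i | i) (j | j)
    · exact ⟨le_rfl, Nat.le_succ _⟩
    · exact ap i j
    · rw [sym]; exact ap j i
    · exact ⟨le_rfl, Nat.le_succ _⟩
  have e2 : ∀ x y, e x y = e y x := by
    rintro (i | i) (j | j)
    exacts [sym _ _, rfl, rfl, sym _ _]
  let D : Fin (m + 1) ⊕ Fin (m + 1) → Fin (m + 1) ⊕ Fin (m + 1) → ℕ := fun x y =>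
    if x = y then 0 else e x y + 1
  have D3 : ∀ x y z, D x z ≤ D x y + D y z := by
    intro x y z
    have := tri x y z
    have := e1 x y
    have := e1 y z
    have := e1 x z
    simp only [D]
    split_ifs with a b c <;> subst_vars <;> first | omega | contradiction
  refine ⟨{ dist := fun x y => D x y
            dist_self := fun x => by simp [D]
            dist_comm := fun x y => by simp only [D, e2 x y, eq_comm]
            dist_triangle := fun x y z => by exact_mod_cast D3 x y z }, fun a b b' l => ?_,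
    fun i j => rfl⟩
  have : key k m a b ≤ key k m a b' := by
    rcases Prod.Lex.toLex_lt_toLex.1 l with l | l
    exacts [l.le, l.1.le]
  have := G_mono k (p (inl a)) this
  change ((G k (p (inl a)) (key k m a b) + 1 : ℕ) : ℝ) ≤ (G k (p (inl a)) (key k m a b') + 1 : ℕ)
  exact_mod_cast Nat.succ_le_succ this

theorem main (k : ℕ) (M : Fin ((k + 1 + 1) * 2 ^ (k + 1) + 1) ≃ Fin ((k + 1 + 1) * 2 ^ (k + 1) + 1)) :
    ∃ d, Consistent (prof (k + 1) _) d ∧ opt d ≤ 2 ∧ (k + 2 : ℝ) ≤ cost d M := by
  generalize hm : (k + 1 + 1) * 2 ^ (k + 1) = m at M ⊢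
  have hb : ∀ x ≤ 2 * m, h (k + 1) (x + (k + 1 + 1)) ≤ k + 1 + 1 := fun x hx => by
    refine (h_mono _ (Nat.add_le_add_right hx _)).trans (Nat.le_of_lt_succ ?_)
    unfold h
    rw [Nat.add_div_right _ (by omega), ← hm, ← mul_assoc, mul_comm 2, mul_assoc,
      Nat.mul_div_cancel_left _ (by omega)]
    refine Nat.log_lt_of_lt_pow (by omega) ?_
    have : 1 ≤ 2 ^ k := Nat.one_le_two_pow
    simp only [Nat.succ_eq_add_one, pow_succ]
    omega
  have hl : ∀ x, m ≤ x → k + 1 ≤ h (k + 1) x := fun x hx => by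
    refine le_trans ?_ (h_mono _ hx)
    unfold h
    rw [← hm, Nat.mul_div_cancel_left _ (by omega)]
    exact Nat.le_log_of_pow_le (by omega) (by omega)
  have h1 : h (k + 1) (0 + (k + 1 + 1)) ≤ 1 := (h_add _ 0).trans (by simp [h])
  have fin : ∀ (p : Fin (m + 1) ⊕ Fin (m + 1) → ℕ) (N : Fin (m + 1) ≃ Fin (m + 1)),
      (∀ i j, j ≠ Fin.last m → Nat.dist (p (inl i)) (p (inr j)) = Nat.dist (2 * i) (2 * j + 1)) →
      (∀ i, p (inl i) ≤ 2 * m) → m ≤ p (inl (M.symm (Fin.last m))) →
      (∀ i, N i = Fin.last m ∧ p (inl i) = 0 ∨ N i ≠ Fin.last m ∧ Nat.dist (2 * i) (2 * N i + 1) = 1) →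
      ∃ d, Consistent (prof (k + 1) m) d ∧ opt d ≤ 2 ∧ (k + 2 : ℝ) ≤ cost d M := by
    intro p N a1 a2 a3 a4
    obtain ⟨d, d1, d2⟩ := build (k + 1) m p a1 fun i => hb _ (a2 i)
    refine ⟨d, d1, (ciInf_le (Set.finite_range _).bddBelow N).trans (ciSup_le fun i => ?_),
      le_trans ?_ (le_ciSup (Set.finite_range _).bddAbove (M.symm (Fin.last m)))⟩
    · rw [d2]
      have : G (k + 1) (p (inl i)) (key (k + 1) m i (N i)) ≤ 1 := by
        rcases a4 i with ⟨b1, b2⟩ | ⟨b1, b2⟩
        · simp only [G, key, b1, b2, if_true]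
          exact (min_le_right _ _).trans h1
        · simp only [G, key, b1, b2, if_false]
          exact min_le_left _ _
      exact_mod_cast Nat.succ_le_succ this
    · rw [d2, Equiv.apply_symm_apply]
      have := hl _ (a3.trans (Nat.le_add_right _ (k + 1 + 1)))
      have : k + 1 ≤ G (k + 1) (p (inl (M.symm (Fin.last m)))) (key (k + 1) m (M.symm (Fin.last m))
          (Fin.last m)) := by
        simp only [G, key, if_true]
        omega
      exact_mod_cast Nat.succ_le_succ this
  rcases le_total m (2 * M.symm (Fin.last m)) with l | l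
  · refine fin (Sum.elim (fun i => 2 * i) fun j => 2 * j + 1) (Equiv.subRight 1) (fun _ _ _ => rfl)
      (fun i => by have := i.2; simp only [Sum.elim_inl]; omega) l fun i => ?_
    have := Fin.coe_sub_one i
    have := i.2
    simp only [Sum.elim_inl, Equiv.subRight_apply, ne_eq, Fin.ext_iff, Fin.val_last, Nat.dist] at *
    split_ifs at * with e
    · left; simp only [Fin.val_zero] at e; omega
    · right; simp only [Fin.val_zero] at e; omega
  · refine fin (Sum.elim (fun i => 2 * m - 2 * i) fun j => 2 * m - (2 * j + 1)) (Equiv.refl _)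
      (fun i j hj => ?_) (fun i => by simp) (by simp only [Sum.elim_inl]; omega) fun i => ?_
    · have := i.2
      have := j.2
      simp only [Sum.elim_inl, Sum.elim_inr, ne_eq, Fin.ext_iff, Fin.val_last, Nat.dist] at *
      omega
    · have := i.2
      simp only [Sum.elim_inl, Equiv.refl_apply, ne_eq, Fin.ext_iff, Fin.val_last, Nat.dist]
      omega

theorem result : ¬ ∃ (f : ∀ n, Profile n → (Fin n ≃ Fin n)) (C : ℝ), ∀ n, 1 ≤ n →
    ∀ (σ : Profile n) (d : PseudoMetricSpace (Fin n ⊕ Fin n)), Consistent σ d →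
      cost d (f n σ) ≤ C * opt d := by
  rintro ⟨f, C, H⟩
  obtain ⟨k, hk⟩ := exists_nat_ge (2 * |C|)
  obtain ⟨d, d1, d2, d3⟩ := main k (f _ (prof (k + 1) _))
  have h1 := H _ (Nat.succ_le_succ (Nat.zero_le _)) _ d d1
  have h0 : 0 ≤ opt d := Real.iInf_nonneg fun M => Real.iSup_nonneg fun a => @dist_nonneg _ d _ _
  have := le_abs_self C
  have := abs_nonneg C
  nlinarith

end Pool.Agent.Results.MP_b944bf_lc.Unbounded
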